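import Pool.Agent.Helper25.MS.Main
import Pool.Agent.Helper25.MS.Reg

/-!
# Menger sets, Scheepers sets and products with `𝔡`-concentrated sets

All definitions are in `Pool/Agent/Helper25/MS`.

* `Menger X`, `Scheepers X`: the two covering properties, as in the problem (for `X : Set ℝ` and for subsets of the plane `ℝ × ℝ`).
* `PairScheepers X`: for every sequence of open covers there are finite subfamilies `F n` such that any two points of `X`
  are covered by one and the same `F n`.
* `dd` is the dominating number `𝔡`: the least cardinality of a family `D` of functions `ℕ → ℕ` such that every function is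
  eventually bounded by a member of `D`.
* `Unsplit R`: `R` consists of infinite sets of natural numbers, and for every `A ⊆ ℕ` some `r` in `R` has `r ∩ A` finite or
  `r \ A` finite; so `∃ R, Unsplit R ∧ #R < dd` says that the reaping number `𝔯` is less than `𝔡`.
* `Concentrated X` (`𝔡`-concentrated): `X` has a countable subset `D` such that every open set which contains `D` contains all
  but fewer than `𝔡` points of `X`.
* `CompactlyCovered X`: every `G_δ` set `O` which contains `X` contains fewer than `𝔡` compact sets which cover `X`.
* `SmallU U`: `U` is a nonprincipal ultrafilter on `ℕ` with a base of fewer than `𝔡` sets.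
* `MengerMod U X`: for every sequence `C n` of open covers of `X` there are `l : ℕ → ℕ`, tending to infinity, and finite subfamilies
  `F a` of `C (l a)` such that for each `x` in `X` the set of the `a` for which `F a` covers `x` belongs to `U`.
* `WeaklyConcentrated X`: for every `κ < 𝔡` and every function `R` which assigns to each `σ`-compact subset `D` of `X` a family of
  at most `κ` open sets which contain `D`, there are fewer than `𝔡` sets `D` such that each point of `X` lies, for one of them,
  in all members of `R D`.

The theorem: seven statements are equivalent, the first of which says that every Menger set of reals is Scheepers; if they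
hold then `𝔡` is regular, and the product of a Menger set and a weakly concentrated set is Scheepers.
-/

set_option autoImplicit false

open Set Cardinal
open Pool.Agent.Helper25.MS

namespace Pool.Agent.Results.MP_e47b01_lc.ConcentratedProducts

theorem result :
    List.TFAE [
      -- (1) every Menger set of reals is Scheepers
      ∀ X : Set ℝ, Menger X → Scheepers X,
      -- (2) the same for pairs of points
      ∀ X : Set ℝ, Menger X → PairScheepers X,
      -- (3) products of a Menger set and a `𝔡`-concentrated set are Menger
      ∀ X Y : Set ℝ, Concentrated X → Menger Y → Menger (X ×ˢ Y),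
      -- (4) products of a Menger set and a `𝔡`-concentrated set are Scheepers
      ∀ X Y : Set ℝ, Concentrated X → Menger Y → Scheepers (X ×ˢ Y),
      -- (5) `𝔯 < 𝔡`, and unions of fewer than `𝔡` Menger sets are Menger
      (∃ R : Set (Set ℕ), Unsplit R ∧ #R < dd) ∧
        ∀ 𝓢 : Set (Set ℝ), #𝓢 < dd → (∀ S ∈ 𝓢, Menger S) → Menger (⋃₀ 𝓢),
      -- (6) Menger sets are covered by fewer than `𝔡` compact subsets of any `G_δ` set which contains them
      ∀ X : Set ℝ, Menger X → CompactlyCovered X,
      -- (7) all Menger sets are Menger modulo one nonprincipal ultrafilter with a base of fewer than `𝔡` sets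
      ∃ U : Ultrafilter ℕ, SmallU U ∧ ∀ X : Set ℝ, Menger X → MengerMod U X] ∧
    ((∀ X : Set ℝ, Menger X → Scheepers X) →
      dd.IsRegular ∧ ∀ X Y : Set ℝ, WeaklyConcentrated X → Menger Y → Scheepers (X ×ˢ Y)) := by
  refine ⟨tfae, fun H => ⟨?_, weak H⟩⟩
  obtain ⟨U, hU, -⟩ := UM_of_pairs fun X hX => (H X hX).pair
  exact hU.isRegular

end Pool.Agent.Results.MP_e47b01_lc.ConcentratedProducts
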