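import Pool.Agent.Helper25.MS.Ctb

/-!
# A criterion for the productivity of the Menger property

All definitions are in `Pool/Agent/Helper25/MS` (`Defs`, `TripA`, `Ctb`).

* `Menger X`, `Scheepers X`: the two covering properties, as in the problem (for `X : Set ℝ` and for subsets of the plane `ℝ × ℝ`).
* `dd` is the dominating number `𝔡`: the least cardinality of a family `D` of functions `ℕ → ℕ` such that every function is
  eventually bounded by a member of `D`.
* `ConcOn X₁ H` (`X₁` is `𝔡`-concentrated on `H`): every open set which contains `H` contains all but fewer than `𝔡` points
  of `X₁`.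
* `NoConc 𝓗`: if `X` is Menger, `X₁ ⊆ X`, `H` is disjoint from `X` and has the property `𝓗`, and `X₁` is `𝔡`-concentrated
  on `H`, then `X₁` has fewer than `𝔡` points.
* `LineConcentrated`: for every function `R` which assigns to each countable set `S` of reals a family of fewer than `𝔡` open
  sets which contain `S`, there are fewer than `𝔡` countable sets `S` such that each real number lies, for one of them, in
  all members of `R S`.

The theorem: every Menger set of reals is Scheepers if and only if `NoConc` holds for countable sets `H`; the product of
any two Menger sets of reals is Menger if and only if `NoConc` holds for Menger sets `H`.  Hence Q1 asks whether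
`NoConc` for countable sets implies `NoConc` for Menger sets.
-/

set_option autoImplicit false

open Set Cardinal
open Pool.Agent.Helper25.MS

namespace Pool.Agent.Results.MP_e47b01_lc.ProductivityCriterion

theorem result :
    -- (A)
    ((∀ X : Set ℝ, Menger X → Scheepers X) ↔ NoConc Set.Countable) ∧
    -- (B)
    ((∀ X Y : Set ℝ, Menger X → Menger Y → Menger (X ×ˢ Y)) ↔ NoConc Menger) ∧
    -- (C)
    ((∀ X : Set ℝ, Menger X → Scheepers X) → LineConcentrated →
      ∀ X Y : Set ℝ, Menger X → Menger Y → Menger (X ×ˢ Y)) :=
  ⟨scheepers_iff, productive_iff, productive_of_line⟩

end Pool.Agent.Results.MP_e47b01_lc.ProductivityCriterion
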